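import Pool.Agent.Q192.SE.Proj
import Pool.Agent.Q192.SE.Sep
import Pool.Agent.Q192.SE.Target
import Pool.Agent.Q194.SE.Spatial

/-!
# Isomorphisms of support expansion algebras are spatially implemented

Let `(X, μ)` be a measure space such that `L²(B)` is separable for every set `B` of finite measure
(for example: any measure on a countably generated σ-algebra), and let `(Y, ν)` be any measure
space. Every `*`-isomorphism of the support expansion algebras of the two spaces is implemented by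
a unitary `L²(X, μ) → L²(Y, ν)`.
-/

open MeasureTheory Filter
open scoped NNReal ENNReal

namespace Pool.Agent.Results.MP_612f91_an.SpatialIsomorphisms

/-- The Hilbert space `L²(X, μ)` of complex functions. -/
abbrev L2 {X : Type*} [MeasurableSpace X] (μ : Measure X) : Type _ := Lp ℂ 2 μ

/-- The bounded operators on `L²(X, μ)`. -/
abbrev Op {X : Type*} [MeasurableSpace X] (μ : Measure X) : Type _ := L2 μ →L[ℂ] L2 μ

/-- The vector `ξ` lies in the range of the projection `χ_Q`. -/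
def VanishesOff {X : Type*} [MeasurableSpace X] (μ : Measure X) (ξ : L2 μ) (Q : Set X) : Prop :=
  ∀ᵐ x ∂μ, x ∉ Q → ξ x = 0

/-- The operator `b` is the adjoint of `a`. -/
def IsAdjointOf {X : Type*} [MeasurableSpace X] (μ : Measure X) (b a : Op μ) : Prop :=
  ∀ ξ η : L2 μ, inner ℂ (a ξ) η = inner ℂ ξ (b η)

/-- For every projection `χ_Q` there is a projection `χ_P` with `χ_P a χ_Q = a χ_Q` and
`μ P ≤ l μ Q`, that is: `τ (s (a χ_Q)) ≤ l τ (χ_Q)`. -/
def SupportBound {X : Type*} [MeasurableSpace X] (μ : Measure X) (l : ℝ≥0) (a : Op μ) : Prop :=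
  ∀ Q : Set X, MeasurableSet Q → ∃ P : Set X, MeasurableSet P ∧ μ P ≤ l * μ Q ∧
    ∀ ξ : L2 μ, VanishesOff μ ξ Q → VanishesOff μ (a ξ) P

/-- The operator `a` has bounded support expansion. -/
def BoundedSupportExpansion {X : Type*} [MeasurableSpace X] (μ : Measure X) (a : Op μ) : Prop :=
  ∃ (l : ℝ≥0) (b : Op μ), IsAdjointOf μ b a ∧ SupportBound μ l a ∧ SupportBound μ l b

/-- The support expansion algebra: the norm closure of the set of the operators of bounded support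
expansion. -/
def RoeAlgebra {X : Type*} [MeasurableSpace X] (μ : Measure X) : Set (Op μ) :=
  closure {a | BoundedSupportExpansion μ a}

/-- The restriction of `Φ` is a `*`-isomorphism of the two support expansion algebras. -/
structure IsStarIsomorphism {X Y : Type*} [MeasurableSpace X] [MeasurableSpace Y]
    (μ : Measure X) (ν : Measure Y) (Φ : Op μ → Op ν) : Prop where
  bijOn : Set.BijOn Φ (RoeAlgebra μ) (RoeAlgebra ν)
  add : ∀ a ∈ RoeAlgebra μ, ∀ b ∈ RoeAlgebra μ, Φ (a + b) = Φ a + Φ b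
  smul : ∀ c : ℂ, ∀ a ∈ RoeAlgebra μ, Φ (c • a) = c • Φ a
  mul : ∀ a ∈ RoeAlgebra μ, ∀ b ∈ RoeAlgebra μ, Φ (a ∘L b) = Φ a ∘L Φ b
  star : ∀ a ∈ RoeAlgebra μ, ∀ b ∈ RoeAlgebra μ, IsAdjointOf μ b a → IsAdjointOf ν (Φ b) (Φ a)

/-- There is a unitary `U` with `Φ a = U a U*` for all `a` in the algebra. -/
def SpatiallyImplemented {X Y : Type*} [MeasurableSpace X] [MeasurableSpace Y]
    (μ : Measure X) (ν : Measure Y) (Φ : Op μ → Op ν) : Prop :=
  ∃ U : L2 μ ≃ₗᵢ[ℂ] L2 ν, ∀ a ∈ RoeAlgebra μ, ∀ ξ : L2 μ, Φ a (U ξ) = U (a ξ)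

/-- `L²(B)` is separable for all measurable `B` of finite measure. -/
def LocallySeparable {X : Type*} [MeasurableSpace X] (μ : Measure X) : Prop :=
  ∀ B : Set X, MeasurableSet B → μ B ≠ ⊤ →
    TopologicalSpace.SeparableSpace (L2 (μ.restrict B))

theorem isAdjointOf_iff {X : Type*} [MeasurableSpace X] {μ : Measure X} {a b : Op μ} :
    IsAdjointOf μ b a ↔ b = ContinuousLinearMap.adjoint a := by
  constructor
  · intro hb
    rw [ContinuousLinearMap.eq_adjoint_iff]
    intro x y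
    rw [← inner_conj_symm, ← hb y x, inner_conj_symm]
  · rintro rfl ξ η
    exact (ContinuousLinearMap.adjoint_inner_right a ξ η).symm

theorem roe_eq {X : Type*} [MeasurableSpace X] (μ : Measure X) :
    RoeAlgebra μ = (Q192.SE.Cu μ : Set (Op μ)) := by
  have h : {a : Op μ | BoundedSupportExpansion μ a} = (Q192.SE.FE μ : Set (Op μ)) := by
    ext a
    constructor
    · rintro ⟨l, b, hb, h1, h2⟩
      rw [isAdjointOf_iff] at hb
      subst hb
      exact ⟨l, Q192.SE.expand_of_cover h1, Q192.SE.expand_of_cover h2⟩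
    · rintro ⟨l, hl⟩
      exact ⟨l, _, isAdjointOf_iff.2 rfl, fun Q _ => Q192.SE.exists_cover hl.1 Q,
        fun Q _ => Q192.SE.exists_cover hl.2 Q⟩
  rw [RoeAlgebra, h]
  rfl

theorem main {X Y : Type*} [MeasurableSpace X] [MeasurableSpace Y] (μ : Measure X) (ν : Measure Y)
    (hX : LocallySeparable μ) (Φ : Op μ → Op ν) (hΦ : IsStarIsomorphism μ ν Φ) :
    SpatiallyImplemented μ ν Φ := by
  have hc : ∀ B, MeasurableSet B → μ B ≠ ⊤ → Q192.SE.CG μ B := fun B hB hBf =>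
    Q192.SE.cg_of_separable hB hBf (hX B hB hBf)
  obtain ⟨h1, h2, h3, h4, h5⟩ := hΦ
  rw [SpatiallyImplemented]
  rw [roe_eq] at *
  rw [roe_eq] at h1
  exact Q194.SE.spatial_of_comm (Q192.SE.blocks hc) (Q192.SE.target ν).comm Φ h1 h2 h3 h4
    fun a ha => isAdjointOf_iff.1 (h5 a ha _ (Q192.SE.Cu_adj a ha) (isAdjointOf_iff.2 rfl))

theorem separable {X : Type*} [MeasurableSpace X] [MeasurableSpace.CountablyGenerated X]
    (μ : Measure X) : LocallySeparable μ := by
  intro B _ hBf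
  have : IsFiniteMeasure (μ.restrict B) := ⟨by
    rw [Measure.restrict_apply_univ]
    exact hBf.lt_top⟩
  have : Fact ((2 : ℝ≥0∞) ≠ ⊤) := ⟨by norm_num⟩
  have : SecondCountableTopology (L2 (μ.restrict B)) := Lp.SecondCountableTopology
  infer_instance

/-- The inverse of a `*`-isomorphism is a `*`-isomorphism. -/
theorem inverse {X Y : Type*} [MeasurableSpace X] [MeasurableSpace Y] {μ : Measure X}
    {ν : Measure Y} {Φ : Op μ → Op ν} (hΦ : IsStarIsomorphism μ ν Φ) :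
    ∃ Ψ : Op ν → Op μ, IsStarIsomorphism ν μ Ψ ∧ ∀ a ∈ RoeAlgebra μ, Ψ (Φ a) = a := by
  obtain ⟨h1, h2, h3, h4, h5⟩ := hΦ
  have hinv : ∀ a ∈ RoeAlgebra μ, Function.invFunOn Φ (RoeAlgebra μ) (Φ a) = a := fun a ha =>
    h1.injOn.leftInvOn_invFunOn ha
  have hsurj : ∀ b ∈ RoeAlgebra ν, ∃ a ∈ RoeAlgebra μ, Φ a = b := fun b hb => h1.surjOn hb
  have hadd : ∀ a ∈ RoeAlgebra μ, ∀ b ∈ RoeAlgebra μ, a + b ∈ RoeAlgebra μ := by
    rw [roe_eq]
    exact fun a ha b hb => (Q192.SE.Cu μ).add_mem ha hb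
  have hsmul : ∀ c : ℂ, ∀ a ∈ RoeAlgebra μ, c • a ∈ RoeAlgebra μ := by
    rw [roe_eq]
    exact fun c a ha => (Q192.SE.Cu μ).smul_mem c ha
  have hmul : ∀ a ∈ RoeAlgebra μ, ∀ b ∈ RoeAlgebra μ, a ∘L b ∈ RoeAlgebra μ := by
    rw [roe_eq]
    exact Q192.SE.Cu_mul
  have hadj : ∀ a ∈ RoeAlgebra μ, ContinuousLinearMap.adjoint a ∈ RoeAlgebra μ := by
    rw [roe_eq]
    exact Q192.SE.Cu_adj
  refine ⟨Function.invFunOn Φ (RoeAlgebra μ), ⟨⟨?_, ?_, ?_⟩, ?_, ?_, ?_, ?_⟩, hinv⟩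
  · intro b hb
    obtain ⟨a, ha, rfl⟩ := hsurj b hb
    rw [hinv a ha]
    exact ha
  · intro b hb b' hb' hbb
    obtain ⟨a, ha, rfl⟩ := hsurj b hb
    obtain ⟨a', ha', rfl⟩ := hsurj b' hb'
    rw [hinv a ha, hinv a' ha'] at hbb
    rw [hbb]
  · intro a ha
    exact ⟨Φ a, h1.mapsTo ha, hinv a ha⟩
  · intro b hb b' hb'
    obtain ⟨a, ha, rfl⟩ := hsurj b hb
    obtain ⟨a', ha', rfl⟩ := hsurj b' hb'
    rw [hinv a ha, hinv a' ha', ← h2 a ha a' ha', hinv _ (hadd a ha a' ha')]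
  · intro c b hb
    obtain ⟨a, ha, rfl⟩ := hsurj b hb
    rw [hinv a ha, ← h3 c a ha, hinv _ (hsmul c a ha)]
  · intro b hb b' hb'
    obtain ⟨a, ha, rfl⟩ := hsurj b hb
    obtain ⟨a', ha', rfl⟩ := hsurj b' hb'
    rw [hinv a ha, hinv a' ha', ← h4 a ha a' ha', hinv _ (hmul a ha a' ha')]
  · intro b hb b' hb' hbb
    obtain ⟨a, ha, rfl⟩ := hsurj b hb
    have h6 := h5 a ha _ (hadj a ha) (isAdjointOf_iff.2 rfl)
    rw [isAdjointOf_iff] at h6 hbb
    rw [hbb, ← h6, hinv a ha, hinv _ (hadj a ha)]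
    exact isAdjointOf_iff.2 rfl

universe u v

theorem result :
    -- (1) one of the two spaces is locally separable, the other one is arbitrary
    (∀ (X : Type u) (Y : Type v) [MeasurableSpace X] [MeasurableSpace Y]
      (μ : Measure X) (ν : Measure Y), LocallySeparable μ ∨ LocallySeparable ν →
      ∀ Φ : Op μ → Op ν, IsStarIsomorphism μ ν Φ → SpatiallyImplemented μ ν Φ) ∧
    -- (2) measures on countably generated σ-algebras are locally separable
    (∀ (X : Type u) [MeasurableSpace X] [MeasurableSpace.CountablyGenerated X] (μ : Measure X),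
      LocallySeparable μ) := by
  refine ⟨?_, fun X _ _ μ => separable μ⟩
  intro X Y _ _ μ ν h Φ hΦ
  rcases h with h | h
  · exact main μ ν h Φ hΦ
  · obtain ⟨Ψ, hΨ, hinv⟩ := inverse hΦ
    obtain ⟨U, hU⟩ := main ν μ h Ψ hΨ
    refine ⟨U.symm, fun a ha ξ => ?_⟩
    apply U.injective
    have h1 := hU (Φ a) (hΦ.bijOn.mapsTo ha) (U.symm ξ)
    rw [hinv a ha, LinearIsometryEquiv.apply_symm_apply] at h1
    rw [← h1, LinearIsometryEquiv.apply_symm_apply]

end Pool.Agent.Results.MP_612f91_an.SpatialIsomorphisms
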